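import Pool.Agent.Helper73.SY.Stmts
import Pool.Agent.Helper65.LR.Rh

/-!
# Support points and levels (project MP_a2630c_SY, module DAT)
-/

open MeasureTheory Set Metric Real Filter Topology
open scoped RealInnerProductSpace ENNReal
open Pool.Agent.Helper16.Buoy (E cap IsEllipsoid Homothetic buoyancyBody)
open Pool.Agent.Helper73.HV (supp)
open Pool.Agent.Helper73.LR (CB vol GG Sol aff)

namespace Pool.Agent.Helper79.SY

open Pool.Agent.Helper73.SY Pool.Agent.Helper65.LR Pool.Agent.Helper51.HV

variable {n : ℕ} {K : Set (E n)} {δ lam : ℝ}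

theorem neg_supp_le (hK : IsCompact K) {x : E n} (hx : x ∈ K) (u : E n) :
    -supp K (-u) ≤ inner ℝ u x := by
  have := le_supp hK hx (-u)
  rw [inner_neg_left] at this
  linarith

theorem closure_int (hK : CB K) : closure (interior K) = K := by
  rw [hK.conv.closure_interior_eq_closure_of_nonempty_interior hK.int, hK.comp.isClosed.closure_eq]

/-- An interior point beyond a level below the support value. -/
theorem exists_int_gt (hK : CB K) {u : E n} {τ : ℝ} (h : τ < supp K u) :
    ∃ y ∈ interior K, τ < inner ℝ u y := by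
  obtain ⟨x1, hx1, hx1u⟩ := (supp_greatest hK.comp (hK.int.mono interior_subset) u).1
  have hx1u' : inner ℝ u x1 = supp K u := hx1u
  rw [← closure_int hK] at hx1
  have ho : IsOpen {x : E n | τ < inner ℝ u x} := isOpen_lt continuous_const (by fun_prop)
  obtain ⟨y, hy1, hy2⟩ := mem_closure_iff.1 hx1 _ ho (by
    show τ < inner ℝ u x1
    rw [hx1u']; exact h)
  exact ⟨y, hy2, hy1⟩

/-- Any hyperplane strictly between the support hyperplanes meets the interior. -/
theorem exists_int_level (hK : CB K) {u : E n} {τ : ℝ} (h1 : -supp K (-u) < τ)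
    (h2 : τ < supp K u) : ∃ y ∈ interior K, inner ℝ u y = τ := by
  obtain ⟨y1, hy1, hy1u⟩ := exists_int_gt hK h2
  obtain ⟨y2, hy2, hy2u⟩ := exists_int_gt (u := -u) (τ := -τ) hK (by linarith)
  rw [inner_neg_left] at hy2u
  have hd : 0 < inner ℝ u y1 - inner ℝ u y2 := by linarith
  set s : ℝ := (τ - inner ℝ u y2) / (inner ℝ u y1 - inner ℝ u y2) with hs
  have hs0 : 0 ≤ s := div_nonneg (by linarith) hd.le
  have hs1 : s ≤ 1 := (div_le_one hd).2 (by linarith)
  refine ⟨s • y1 + (1 - s) • y2, hK.conv.interior hy1 hy2 hs0 (by linarith) (by ring), ?_⟩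
  rw [inner_add_right, inner_smul_right, inner_smul_right]
  have : s * (inner ℝ u y1 - inner ℝ u y2) = τ - inner ℝ u y2 := by
    rw [hs]; field_simp
  linarith

/-- The cap volume is strictly decreasing between the support levels. -/
theorem cap_strict (hK : CB K) {u : E n} {τ1 τ2 : ℝ}
    (h : ∃ y ∈ interior K, τ1 < inner ℝ u y ∧ inner ℝ u y < τ2) :
    volume (cap K u τ2) < volume (cap K u τ1) := by
  obtain ⟨y, hy, hy1, hy2⟩ := h
  set S : Set (E n) := interior K ∩ ({x | τ1 < inner ℝ u x} ∩ {x | inner ℝ u x < τ2}) with hS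
  have hSo : IsOpen S := isOpen_interior.inter
    ((isOpen_lt continuous_const (by fun_prop)).inter (isOpen_lt (by fun_prop) continuous_const))
  have hSp : 0 < volume S := hSo.measure_pos _ ⟨y, hy, hy1, hy2⟩
  have hdis : Disjoint (cap K u τ2) S := by
    rw [Set.disjoint_left]
    rintro x ⟨_, hx2⟩ ⟨_, _, hx3⟩
    have h1 : τ2 ≤ inner ℝ u x := hx2
    have h2 : inner ℝ u x < τ2 := hx3
    linarith
  have hsub : cap K u τ2 ∪ S ⊆ cap K u τ1 := by
    rintro x (⟨hx1, hx2⟩ | ⟨hx1, hx2, hx3⟩)
    · have h1 : τ2 ≤ inner ℝ u x := hx2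
      exact ⟨hx1, by show τ1 ≤ inner ℝ u x; linarith⟩
    · have h2 : τ1 < inner ℝ u x := hx2
      exact ⟨interior_subset hx1, by show τ1 ≤ inner ℝ u x; exact h2.le⟩
  have hfin : volume (cap K u τ2) ≠ ⊤ :=
    ((measure_mono (cap_subset u τ2)).trans_lt hK.comp.measure_lt_top).ne
  calc volume (cap K u τ2) < volume (cap K u τ2) + volume S := ENNReal.lt_add_right hfin hSp.ne'
    _ = volume (cap K u τ2 ∪ S) := (measure_union hdis hSo.measurableSet).symm
    _ ≤ volume (cap K u τ1) := measure_mono hsub

theorem cap_anti (u : E n) {τ1 τ2 : ℝ} (h : τ1 ≤ τ2) : cap K u τ2 ⊆ cap K u τ1 := by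
  rintro x ⟨hx, hx2⟩
  have h1 : τ2 ≤ inner ℝ u x := hx2
  exact ⟨hx, by show τ1 ≤ inner ℝ u x; linarith⟩

/-- Integrals over caps depend continuously on the cap. -/
theorem int_cap_cont (hK : IsCompact K) {F : Type*} [NormedAddCommGroup F] [NormedSpace ℝ F]
    {f : E n → F} (hf : Continuous f) {p0 : E n × ℝ} (h0 : p0.1 ≠ 0) :
    ContinuousAt (fun p : E n × ℝ => ∫ x in cap K p.1 p.2, f x) p0 := by
  have hm : ∀ p : E n × ℝ, MeasurableSet {x : E n | p.2 ≤ inner ℝ p.1 x} := fun p =>
    measurableSet_le measurable_const (by fun_prop)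
  have h1 : (fun p : E n × ℝ => ∫ x in cap K p.1 p.2, f x) = fun p =>
      ∫ x in K, ({x : E n | p.2 ≤ inner ℝ p.1 x}).indicator f x := by
    funext p
    rw [setIntegral_indicator (hm p)]
    rfl
  rw [h1]
  apply continuousAt_of_dominated (bound := fun x => ‖f x‖)
  · refine Filter.Eventually.of_forall fun p => ?_
    exact ((int_on hK hf).indicator (hm p)).aestronglyMeasurable
  · refine Filter.Eventually.of_forall fun p => Filter.Eventually.of_forall fun x => ?_
    exact norm_indicator_le_norm_self _ _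
  · exact (int_on hK hf).norm
  · have h0 : ∀ᵐ x : E n ∂(volume.restrict K), inner ℝ p0.1 x ≠ p0.2 := by
      apply ae_restrict_of_ae
      have := hyper_null h0 p0.2
      rw [ae_iff]
      simpa using this
    filter_upwards [h0] with x hx
    have hc : Continuous fun p : E n × ℝ => (inner ℝ p.1 x - p.2 : ℝ) := by fun_prop
    rcases lt_or_gt_of_ne hx with h | h
    · have h2 : ∀ᶠ p : E n × ℝ in 𝓝 p0, ({x : E n | p.2 ≤ inner ℝ p.1 x}).indicator f x = 0 := by
        filter_upwards [hc.continuousAt.eventually_lt (continuousAt_const (y := (0 : ℝ)))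
          (by linarith)] with p hp
        apply indicator_of_notMem
        intro h'
        have h'' : p.2 ≤ inner ℝ p.1 x := h'
        linarith
      exact (continuousAt_const (y := (0 : F))).congr (h2.mono fun _ h => h.symm)
    · have h2 : ∀ᶠ p : E n × ℝ in 𝓝 p0,
          ({x : E n | p.2 ≤ inner ℝ p.1 x}).indicator f x = f x := by
        filter_upwards [(continuousAt_const (y := (0 : ℝ))).eventually_lt hc.continuousAt
          (by linarith)] with p hp
        apply indicator_of_mem
        show p.2 ≤ inner ℝ p.1 x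
        linarith
      exact (continuousAt_const (y := f x)).congr (h2.mono fun _ h => h.symm)

theorem vol_eq_int (u : E n) (τ : ℝ) :
    vol (cap K u τ) = ∫ _x in cap K u τ, (1 : ℝ) := by
  rw [setIntegral_const, smul_eq_mul, mul_one]
  rfl

theorem vol_cont (hK : IsCompact K) {p0 : E n × ℝ} (h0 : p0.1 ≠ 0) :
    ContinuousAt (fun p : E n × ℝ => vol (cap K p.1 p.2)) p0 := by
  have h := int_cap_cont hK (f := fun _ => (1 : ℝ)) continuous_const h0
  refine h.congr (Filter.Eventually.of_forall fun p => ?_)
  exact (vol_eq_int p.1 p.2).symm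

theorem cap_fin (hK : IsCompact K) (u : E n) (τ : ℝ) : volume (cap K u τ) ≠ ⊤ :=
  ((measure_mono (cap_subset u τ)).trans_lt hK.measure_lt_top).ne

/-- Levels of caps of volume `δ` lie strictly between the support levels. -/
theorem level_gt (h : CS K δ lam) {u : E n} {τ : ℝ}
    (hv : volume (cap K u τ) = ENNReal.ofReal δ) : -supp K (-u) < τ := by
  by_contra hc
  push Not at hc
  have h1 : cap K u τ = K := by
    apply Subset.antisymm (cap_subset u _)
    intro x hx
    exact ⟨hx, hc.trans (neg_supp_le h.cb.comp hx u)⟩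
  rw [h1] at hv
  have h2 : vol K = δ := by
    rw [vol, hv, ENNReal.toReal_ofReal h.dpos.le]
  have := h.dlt
  linarith

theorem level_lt (h : CS K δ lam) {u : E n} (hu : u ≠ 0) {τ : ℝ}
    (hv : volume (cap K u τ) = ENNReal.ofReal δ) : τ < supp K u := by
  by_contra hc
  push Not at hc
  have h1 : cap K u τ ⊆ {x : E n | inner ℝ u x = τ} := by
    rintro x ⟨hx, hx2⟩
    have h3 : τ ≤ inner ℝ u x := hx2
    exact le_antisymm ((le_supp h.cb.comp hx u).trans hc) h3
  have h2 : volume (cap K u τ) = 0 := measure_mono_null h1 (hyper_null hu τ)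
  rw [h2] at hv
  have := ENNReal.ofReal_pos.2 h.dpos
  rw [← hv] at this
  exact lt_irrefl _ this

/-- The level of the cap of volume `δ`. -/
noncomputable def tt (K : Set (E n)) (δ : ℝ) (u : E n) : ℝ :=
  Classical.epsilon fun τ : ℝ => volume (cap K u τ) = ENNReal.ofReal δ

theorem tt_vol (h : CS K δ lam) {u : E n} (hu : u ≠ 0) :
    volume (cap K u (tt K δ u)) = ENNReal.ofReal δ := by
  obtain ⟨τ, hτ, _⟩ := h.eq u hu
  exact Classical.epsilon_spec (p := fun τ : ℝ => volume (cap K u τ) = ENNReal.ofReal δ) ⟨τ, hτ⟩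

/-- The level is unique. -/
theorem level_uniq (h : CS K δ lam) {u : E n} (hu : u ≠ 0) {τ1 τ2 : ℝ}
    (hv1 : volume (cap K u τ1) = ENNReal.ofReal δ) (hv2 : volume (cap K u τ2) = ENNReal.ofReal δ) :
    τ1 = τ2 := by
  have key : ∀ a b : ℝ, volume (cap K u a) = ENNReal.ofReal δ →
      volume (cap K u b) = ENNReal.ofReal δ → ¬ a < b := by
    intro a b ha hb hab
    have h1 := level_gt h ha
    have h2 := level_lt h hu hb
    obtain ⟨y, hy, hyu⟩ := exists_int_level h.cb (u := u) (τ := (a + b) / 2) (by linarith)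
      (by linarith)
    have := cap_strict h.cb (u := u) (τ1 := a) (τ2 := b) ⟨y, hy, by rw [hyu]; linarith,
      by rw [hyu]; linarith⟩
    rw [ha, hb] at this
    exact lt_irrefl _ this
  rcases lt_trichotomy τ1 τ2 with h1 | h1 | h1
  · exact (key _ _ hv1 hv2 h1).elim
  · exact h1
  · exact (key _ _ hv2 hv1 h1).elim

theorem tt_eq (h : CS K δ lam) {u : E n} (hu : u ≠ 0) :
    GG K u (tt K δ u) + δ * tt K δ u = lam * supp K u := by
  obtain ⟨τ, hτ, hτ2⟩ := h.eq u hu
  rw [level_uniq h hu (tt_vol h hu) hτ]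
  exact hτ2

theorem tt_min (h : CS K δ lam) {u : E n} (hu : u ≠ 0) (τ : ℝ) :
    lam * supp K u ≤ GG K u τ + δ * τ := by
  rw [← tt_eq h hu]
  exact GG_min h.cb.comp u _ τ h.dpos.le (tt_vol h hu)

theorem tt_cont (h : CS K δ lam) : ContinuousOn (tt K δ) {0}ᶜ := by
  intro u0 hu0
  have hu0' : u0 ≠ 0 := hu0
  apply ContinuousAt.continuousWithinAt
  rw [Metric.continuousAt_iff']
  intro ε hε
  have hlo := level_gt h (tt_vol h hu0')
  have hup := level_lt h hu0' (tt_vol h hu0')
  set t0 := tt K δ u0 with ht0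
  have hvt : vol (cap K u0 t0) = δ := by
    rw [vol, tt_vol h hu0', ENNReal.toReal_ofReal h.dpos.le]
  have hmono : ∀ a b : ℝ, (∃ y ∈ interior K, a < inner ℝ u0 y ∧ inner ℝ u0 y < b) →
      vol (cap K u0 b) < vol (cap K u0 a) := fun a b hab =>
    (ENNReal.toReal_lt_toReal (cap_fin h.cb.comp u0 b) (cap_fin h.cb.comp u0 a)).2
      (cap_strict h.cb hab)
  have h1 : δ < vol (cap K u0 (t0 - ε)) := by
    rw [← hvt]
    apply hmono
    obtain ⟨y, hy, hyu⟩ := exists_int_level h.cb (u := u0) (τ := max (t0 - ε / 2)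
      ((-supp K (-u0) + t0) / 2)) (lt_of_lt_of_le (by linarith) (le_max_right _ _))
      (max_lt (by linarith) (by linarith))
    exact ⟨y, hy, by rw [hyu]; exact lt_of_lt_of_le (by linarith) (le_max_left _ _),
      by rw [hyu]; exact max_lt (by linarith) (by linarith)⟩
  have h2 : vol (cap K u0 (t0 + ε)) < δ := by
    rw [← hvt]
    apply hmono
    obtain ⟨y, hy, hyu⟩ := exists_int_level h.cb (u := u0) (τ := min (t0 + ε / 2)
      ((supp K u0 + t0) / 2)) (lt_min (by linarith) (by linarith))
      (lt_of_le_of_lt (min_le_right _ _) (by linarith))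
    exact ⟨y, hy, by rw [hyu]; exact lt_min (by linarith) (by linarith),
      by rw [hyu]; exact lt_of_le_of_lt (min_le_left _ _) (by linarith)⟩
  have hc : ∀ τ : ℝ, ContinuousAt (fun u : E n => vol (cap K u τ)) u0 := fun τ =>
    ContinuousAt.comp (f := fun u : E n => (u, τ)) (g := fun p : E n × ℝ => vol (cap K p.1 p.2))
      (vol_cont h.cb.comp hu0') (by fun_prop)
  filter_upwards [(continuousAt_const (y := δ)).eventually_lt (hc (t0 - ε)) h1,
    (hc (t0 + ε)).eventually_lt (continuousAt_const (y := δ)) h2,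
    (isOpen_compl_singleton.mem_nhds hu0 : ({0}ᶜ : Set (E n)) ∈ 𝓝 u0)] with u hu1 hu2 hu3
  have hu3' : u ≠ 0 := hu3
  have hvu : vol (cap K u (tt K δ u)) = δ := by
    rw [vol, tt_vol h hu3', ENNReal.toReal_ofReal h.dpos.le]
  have hanti : ∀ a b : ℝ, a ≤ b → vol (cap K u b) ≤ vol (cap K u a) := fun a b hab =>
    ENNReal.toReal_mono (cap_fin h.cb.comp u a) (measure_mono (cap_anti u hab))
  rw [Real.dist_eq, abs_lt]
  constructor
  · by_contra hcon
    push Not at hcon
    have := hanti (tt K δ u) (t0 - ε) (by linarith)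
    linarith
  · by_contra hcon
    push Not at hcon
    have := hanti (t0 + ε) (tt K δ u) (by linarith)
    linarith

/-- The moment of the cap divided by `lam`. -/
noncomputable def XX (K : Set (E n)) (δ lam : ℝ) (u : E n) : E n :=
  lam⁻¹ • ∫ x in cap K u (tt K δ u), x

theorem XX_mom (h : CS K δ lam) (u : E n) :
    ∫ x in cap K u (tt K δ u), x = lam • XX K δ lam u := by
  rw [XX, smul_smul, mul_inv_cancel₀ h.lpos.ne', one_smul]

theorem XX_cont (h : CS K δ lam) : ContinuousOn (XX K δ lam) {0}ᶜ := by
  intro u0 hu0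
  have hu0' : u0 ≠ 0 := hu0
  apply ContinuousAt.continuousWithinAt
  have ht : ContinuousAt (tt K δ) u0 :=
    (tt_cont h).continuousAt (isOpen_compl_singleton.mem_nhds hu0)
  have h1 := int_cap_cont (K := K) h.cb.comp (f := fun x : E n => x) continuous_id
    (p0 := (u0, tt K δ u0)) hu0'
  have h2 : ContinuousAt (fun u : E n => ((u, tt K δ u) : E n × ℝ)) u0 :=
    continuousAt_id.prodMk ht
  have h3 : ContinuousAt (fun u : E n => ∫ x in cap K u (tt K δ u), x) u0 :=
    ContinuousAt.comp (f := fun u : E n => ((u, tt K δ u) : E n × ℝ))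
      (g := fun p : E n × ℝ => ∫ x in cap K p.1 p.2, x) h1 h2
  exact h3.const_smul lam⁻¹

theorem inner_mom (h : CS K δ lam) (u v : E n) :
    ∫ x in cap K u (tt K δ u), (inner ℝ v x : ℝ) = lam * inner ℝ v (XX K δ lam u) := by
  have h1 : IntegrableOn (fun x : E n => x) (cap K u (tt K δ u)) :=
    (int_on h.cb.comp continuous_id).mono_set (cap_subset u _)
  rw [integral_inner h1, XX_mom h, inner_smul_right]

/-- Bathtub inequality. -/
theorem inner_XX_le (h : CS K δ lam) {u : E n} (hu : u ≠ 0) (v : E n) :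
    inner ℝ v (XX K δ lam u) ≤ supp K v := by
  by_cases hv : v = 0
  · subst hv
    obtain ⟨x, hx⟩ := h.cb.int.mono interior_subset
    have := le_supp h.cb.comp hx (0 : E n)
    simpa using this
  · have h1 : ∫ x in cap K u (tt K δ u), (inner ℝ v x - tt K δ v : ℝ) ≤ GG K v (tt K δ v) := by
      unfold GG
      have h1 : ∫ x in cap K u (tt K δ u), (inner ℝ v x - tt K δ v : ℝ) ≤
          ∫ x in cap K u (tt K δ u), max (inner ℝ v x - tt K δ v) 0 := by
        apply setIntegral_mono_on
        · exact cap_int h.cb.comp u _ (by fun_prop)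
        · exact (GG_int h.cb.comp v _).mono_set (cap_subset u _)
        · exact cap_meas h.cb.comp u _
        · intro x _
          exact le_max_left _ _
      refine h1.trans ?_
      apply setIntegral_mono_set
      · exact GG_int h.cb.comp v _
      · exact Filter.Eventually.of_forall fun x => le_max_right _ _
      · exact Filter.Eventually.of_forall (cap_subset u _)
    rw [integral_sub (cap_int h.cb.comp u _ (by fun_prop)) (cap_int h.cb.comp u _ (by fun_prop)),
      inner_mom h, setIntegral_const, measureReal_def, tt_vol h hu,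
      ENNReal.toReal_ofReal h.dpos.le, smul_eq_mul] at h1
    have h2 := tt_eq h hv
    have h3 : lam * inner ℝ v (XX K δ lam u) ≤ lam * supp K v := by linarith
    exact le_of_mul_le_mul_left h3 h.lpos

theorem XX_mem (h : CS K δ lam) {u : E n} (hu : u ≠ 0) : XX K δ lam u ∈ K :=
  mem_of_supp h.cb.conv h.cb.comp (fun v => inner_XX_le h hu v) (h.cb.int.mono interior_subset)

theorem XX_sup (h : CS K δ lam) {u : E n} (hu : u ≠ 0) :
    inner ℝ u (XX K δ lam u) = supp K u := by
  have h1 := GG_add h.cb.comp u (tt K δ u) h.dpos.le (tt_vol h hu)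
  rw [tt_eq h hu, inner_mom h] at h1
  exact (mul_left_cancel₀ h.lpos.ne' h1).symm

theorem XX_uni (h : CS K δ lam) {u : E n} (hu : u ≠ 0) {y : E n} (hy : y ∈ K)
    (hyu : inner ℝ u y = supp K u) : y = XX K δ lam u := by
  have key : ∀ w : E n, inner ℝ w y ≤ inner ℝ w (XX K δ lam u) := by
    intro w
    have hc : ContinuousAt (XX K δ lam) u :=
      (XX_cont h).continuousAt (isOpen_compl_singleton.mem_nhds hu)
    have hl : Tendsto (fun s : ℝ => u + s • w) (𝓝[>] 0) (𝓝 u) := by
      have : ContinuousAt (fun s : ℝ => u + s • w) 0 := by fun_prop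
      have h2 := this.tendsto
      simp only [zero_smul, add_zero] at h2
      exact h2.mono_left nhdsWithin_le_nhds
    have hl2 : Tendsto (fun s : ℝ => (inner ℝ w (XX K δ lam (u + s • w)) : ℝ)) (𝓝[>] 0)
        (𝓝 (inner ℝ w (XX K δ lam u))) :=
      (tendsto_const_nhds).inner (hc.tendsto.comp hl)
    apply ge_of_tendsto hl2
    have hne : ∀ᶠ s : ℝ in 𝓝[>] 0, u + s • w ≠ 0 :=
      hl.eventually (isOpen_compl_singleton.mem_nhds hu)
    filter_upwards [hne, self_mem_nhdsWithin] with s hs hs0
    have hs0' : 0 < s := hs0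
    have h1 := le_supp h.cb.comp hy (u + s • w)
    have h2 := XX_sup h hs
    have h3 := le_supp h.cb.comp (XX_mem h hs) u
    rw [← h2] at h1
    rw [inner_add_left, inner_add_left, inner_smul_left, inner_smul_left] at h1
    simp only [conj_trivial] at h1
    rw [hyu] at h1
    have h4 : s * inner ℝ w y ≤ s * inner ℝ w (XX K δ lam (u + s • w)) := by linarith
    exact le_of_mul_le_mul_left h4 hs0'
  have h1 := key (y - XX K δ lam u)
  have h2 : inner ℝ (y - XX K δ lam u) (y - XX K δ lam u) ≤ (0 : ℝ) := by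
    rw [inner_sub_right]
    linarith
  have h3 : y - XX K δ lam u = 0 := real_inner_self_nonpos.1 h2
  exact sub_eq_zero.1 h3

/-- The supporting hyperplane at a boundary point is unique. -/
theorem XX_nor (h : CS K δ lam) {u v : E n} (hu : u ≠ 0) (hv : v ≠ 0)
    (huv : XX K δ lam u = XX K δ lam v) : ∃ s : ℝ, 0 < s ∧ v = s • u := by
  set a : E n → ℝ := fun x => inner ℝ v x - tt K δ v with ha
  have hac : Continuous a := by fun_prop
  have hmc : MeasurableSet (cap K u (tt K δ u)) := cap_meas h.cb.comp u _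
  -- the difference of the integrands vanishes
  have h1 : ∫ x in K, (max (a x) 0 - (cap K u (tt K δ u)).indicator a x) = 0 := by
    rw [integral_sub (GG_int h.cb.comp v _) ((int_on h.cb.comp hac).indicator hmc),
      setIntegral_indicator hmc, inter_eq_self_of_subset_right (cap_subset u _)]
    have h2 : ∫ x in cap K u (tt K δ u), a x = lam * supp K v - δ * tt K δ v := by
      rw [ha, integral_sub (cap_int h.cb.comp u _ (by fun_prop))
        (cap_int h.cb.comp u _ (by fun_prop)), inner_mom h, setIntegral_const, measureReal_def,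
        tt_vol h hu, ENNReal.toReal_ofReal h.dpos.le, smul_eq_mul, huv, XX_sup h hv]
    have h3 := tt_eq h hv
    have h4 : ∫ x in K, max (a x) 0 = GG K v (tt K δ v) := rfl
    rw [h2, h4]
    linarith
  have hnn : ∀ x, 0 ≤ max (a x) 0 - (cap K u (tt K δ u)).indicator a x := by
    intro x
    by_cases hx : x ∈ cap K u (tt K δ u)
    · rw [indicator_of_mem hx]
      linarith [le_max_left (a x) 0]
    · rw [indicator_of_notMem hx]
      linarith [le_max_right (a x) 0]
  have hae : ∀ᵐ x ∂(volume.restrict K), max (a x) 0 - (cap K u (tt K δ u)).indicator a x = 0 := by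
    have := (integral_eq_zero_iff_of_nonneg (μ := volume.restrict K) hnn
      ((GG_int h.cb.comp v _).sub ((int_on h.cb.comp hac).indicator hmc))).1 h1
    exact this
  -- signs on the open parts
  have hpos : ∀ x ∈ interior K, tt K δ u < inner ℝ u x → 0 ≤ a x := by
    intro x hx hxu
    by_contra hcon
    push Not at hcon
    set S : Set (E n) := interior K ∩ ({x | tt K δ u < inner ℝ u x} ∩ {x | a x < 0}) with hS
    have hSo : IsOpen S := isOpen_interior.inter
      ((isOpen_lt continuous_const (by fun_prop)).inter (isOpen_lt hac continuous_const))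
    have hSp : 0 < volume S := hSo.measure_pos _ ⟨x, hx, hxu, hcon⟩
    have hS0 : volume S = 0 := by
      rw [ae_restrict_iff' h.cb.comp.measurableSet] at hae
      apply measure_mono_null _ (ae_iff.1 hae)
      rintro y ⟨hy1, hy2, hy3⟩
      have hy2' : tt K δ u < inner ℝ u y := hy2
      have hyc : y ∈ cap K u (tt K δ u) :=
        ⟨interior_subset hy1, by show tt K δ u ≤ inner ℝ u y; exact hy2'.le⟩
      have hy3' : a y < 0 := hy3
      show ¬ (y ∈ K → max (a y) 0 - (cap K u (tt K δ u)).indicator a y = 0)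
      intro hyy
      have := hyy (interior_subset hy1)
      rw [indicator_of_mem hyc, max_eq_right hy3'.le] at this
      linarith
    exact hSp.ne' hS0
  have hneg : ∀ x ∈ interior K, inner ℝ u x < tt K δ u → a x ≤ 0 := by
    intro x hx hxu
    by_contra hcon
    push Not at hcon
    set S : Set (E n) := interior K ∩ ({x | inner ℝ u x < tt K δ u} ∩ {x | 0 < a x}) with hS
    have hSo : IsOpen S := isOpen_interior.inter
      ((isOpen_lt (by fun_prop) continuous_const).inter (isOpen_lt continuous_const hac))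
    have hSp : 0 < volume S := hSo.measure_pos _ ⟨x, hx, hxu, hcon⟩
    have hS0 : volume S = 0 := by
      rw [ae_restrict_iff' h.cb.comp.measurableSet] at hae
      apply measure_mono_null _ (ae_iff.1 hae)
      rintro y ⟨hy1, hy2, hy3⟩
      have hyc : y ∉ cap K u (tt K δ u) := by
        rintro ⟨_, hy4⟩
        have hy4' : tt K δ u ≤ inner ℝ u y := hy4
        have hy2' : inner ℝ u y < tt K δ u := hy2
        linarith
      have hy3' : 0 < a y := hy3
      show ¬ (y ∈ K → max (a y) 0 - (cap K u (tt K δ u)).indicator a y = 0)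
      intro hyy
      have := hyy (interior_subset hy1)
      rw [indicator_of_notMem hyc, max_eq_left hy3'.le] at this
      linarith
    exact hSp.ne' hS0
  obtain ⟨y0, hy0, hy0u⟩ := exists_int_level h.cb (level_gt h (tt_vol h hu))
    (level_lt h hu (tt_vol h hu))
  have hune : (0 : ℝ) < inner ℝ u u := real_inner_self_pos.2 hu
  -- small steps stay inside
  have hstep : ∀ w : E n, ∀ᶠ s : ℝ in 𝓝[>] 0, y0 + s • w ∈ interior K := by
    intro w
    have : ContinuousAt (fun s : ℝ => y0 + s • w) 0 := by fun_prop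
    have h2 := this.tendsto
    simp only [zero_smul, add_zero] at h2
    exact (h2.mono_left nhdsWithin_le_nhds).eventually (isOpen_interior.mem_nhds hy0)
  have hlim : ∀ w : E n, Tendsto (fun s : ℝ => a (y0 + s • w)) (𝓝[>] 0) (𝓝 (a y0)) := by
    intro w
    have : ContinuousAt (fun s : ℝ => a (y0 + s • w)) 0 :=
      hac.continuousAt.comp (by fun_prop)
    have h2 := this.tendsto
    simp only [zero_smul, add_zero] at h2
    exact h2.mono_left nhdsWithin_le_nhds
  have ha0 : a y0 = 0 := by
    apply le_antisymm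
    · apply le_of_tendsto (hlim (-u))
      filter_upwards [hstep (-u), self_mem_nhdsWithin] with s hs hs0
      have hs0' : 0 < s := hs0
      apply hneg _ hs
      rw [inner_add_right, inner_smul_right, inner_neg_right, hy0u]
      nlinarith
    · apply ge_of_tendsto (hlim u)
      filter_upwards [hstep u, self_mem_nhdsWithin] with s hs hs0
      have hs0' : 0 < s := hs0
      apply hpos _ hs
      rw [inner_add_right, inner_smul_right, hy0u]
      nlinarith
  have hdir : ∀ w : E n, 0 < (inner ℝ u w : ℝ) → 0 ≤ (inner ℝ v w : ℝ) := by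
    intro w hw
    obtain ⟨s, hs, hs0⟩ := ((hstep w).and self_mem_nhdsWithin).exists
    have hs0' : 0 < s := hs0
    have h2 := hpos _ hs (by
      rw [inner_add_right, inner_smul_right, hy0u]
      have := mul_pos hs0' hw
      linarith)
    have h3 : a (y0 + s • w) = a y0 + s * inner ℝ v w := by
      simp only [ha, inner_add_right, inner_smul_right]
      ring
    rw [h3, ha0, zero_add] at h2
    exact nonneg_of_mul_nonneg_right h2 hs0'
  have horth : ∀ w : E n, (inner ℝ u w : ℝ) = 0 → (inner ℝ v w : ℝ) = 0 := by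
    intro w hw
    have h2 : ∀ w : E n, (inner ℝ u w : ℝ) = 0 → 0 ≤ (inner ℝ v w : ℝ) := by
      intro w hw
      have h3 : ∀ ε : ℝ, 0 < ε → 0 ≤ (inner ℝ v w : ℝ) + ε * inner ℝ v u := by
        intro ε hε
        have := hdir (w + ε • u) (by
          rw [inner_add_right, inner_smul_right, hw, zero_add]
          exact mul_pos hε hune)
        rwa [inner_add_right, inner_smul_right] at this
      have h4 : Tendsto (fun ε : ℝ => (inner ℝ v w : ℝ) + ε * inner ℝ v u) (𝓝[>] 0)
          (𝓝 (inner ℝ v w)) := by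
        have h5 : ContinuousAt (fun ε : ℝ => (inner ℝ v w : ℝ) + ε * inner ℝ v u) 0 := by fun_prop
        have h6 := h5.tendsto
        simp only [zero_mul, add_zero] at h6
        exact h6.mono_left nhdsWithin_le_nhds
      apply ge_of_tendsto h4
      filter_upwards [self_mem_nhdsWithin] with ε hε
      exact h3 ε hε
    apply le_antisymm
    · have := h2 (-w) (by rw [inner_neg_right, hw, neg_zero])
      rw [inner_neg_right] at this
      linarith
    · exact h2 w hw
  set s : ℝ := inner ℝ u v / inner ℝ u u with hs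
  have hvs : v = s • u := by
    have h2 : (inner ℝ u (v - s • u) : ℝ) = 0 := by
      rw [inner_sub_right, inner_smul_right, hs]
      field_simp
      ring
    have h3 := horth _ h2
    have h4 : (inner ℝ (v - s • u) (v - s • u) : ℝ) = 0 := by
      rw [inner_sub_left, h3, inner_smul_left, h2]
      simp
    exact sub_eq_zero.1 (inner_self_eq_zero.1 h4)
  refine ⟨s, ?_, hvs⟩
  have hs0 : 0 ≤ s := by
    have := hdir u hune
    rw [real_inner_comm] at this
    exact div_nonneg this hune.le
  rcases hs0.lt_or_eq with h2 | h2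
  · exact h2
  · exfalso
    apply hv
    rw [hvs, ← h2, zero_smul]

/-- (DAT) Support points and levels. -/
theorem dat : S_dat := by
  intro n K δ lam _ h
  refine ⟨XX K δ lam, tt K δ, ?_⟩
  exact
    { cs := h
      Xc := XX_cont h
      tc := tt_cont h
      Xmem := fun u hu => XX_mem h hu
      Xsup := fun u hu => XX_sup h hu
      Xuni := fun u hu y hy hyu => XX_uni h hu hy hyu
      nor := fun u v x hu hv hx hxu hxv => XX_nor h hu hv
        ((XX_uni h hu hx hxu).symm.trans (XX_uni h hv hx hxv))
      tvol := fun u hu => tt_vol h hu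
      tlo := fun u hu => level_gt h (tt_vol h hu)
      tup := fun u hu => level_lt h hu (tt_vol h hu)
      teq := fun u hu => tt_eq h hu
      tmin := fun u hu τ => tt_min h hu τ
      mom := fun u _ => XX_mom h u }

end Pool.Agent.Helper79.SY
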