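import Pool.Agent.Helper79.SY.Slice

/-!
# The support function of a solution is of class two (project MP_a2630c_SY, module REG)
-/

open MeasureTheory Set Metric Real Filter Topology
open scoped RealInnerProductSpace ENNReal
open Pool.Agent.Helper16.Buoy (E cap IsEllipsoid Homothetic buoyancyBody)
open Pool.Agent.Helper73.HV (supp)
open Pool.Agent.Helper73.LR (CB vol GG Sol aff)

set_option linter.unusedSectionVars false

namespace Pool.Agent.Helper79.SY

open Pool.Agent.Helper73.SY Pool.Agent.Helper65.LR Pool.Agent.Helper51.HV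

variable {n : ℕ} {K : Set (E n)} {e : E n}

theorem AA_cont (e : E n) (p : E n × ℝ) : Continuous (AA e p) := by
  unfold AA cc
  fun_prop

theorem AA_combo (e : E n) (p : E n × ℝ) (y y' : E n) {a b : ℝ} (hab : a + b = 1) :
    AA e p (a • y + b • y') = a • AA e p y + b • AA e p y' := by
  unfold AA
  have h1 : cc e p (a • y + b • y') = a * cc e p y + b * cc e p y' := by
    unfold cc
    rw [inner_add_right, inner_smul_right, inner_smul_right]
    obtain rfl : b = 1 - a := by linarith
    ring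
  rw [h1]
  module

/-- Almost every point of a hyperplane section is off the boundary. -/
theorem sec_null (hK : CB K) (he : ‖e‖ = 1) {p : E n × ℝ} (hp : 0 < (inner ℝ p.1 e : ℝ))
    (hi : ∃ x ∈ interior K, inner ℝ p.1 x = p.2) :
    ∀ᵐ y : WW e, AA e p (y : E n) ∉ frontier K := by
  set Q : Set (WW e) := {y | AA e p (y : E n) ∈ K} with hQ
  have hQc : Convex ℝ Q := by
    intro y hy y' hy' a b ha hb hab
    show AA e p ((a • y + b • y' : WW e) : E n) ∈ K
    have : ((a • y + b • y' : WW e) : E n) = a • (y : E n) + b • (y' : E n) := rfl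
    rw [this, AA_combo _ _ _ _ hab]
    exact hK.conv hy hy' ha hb hab
  have h0 : volume (frontier Q) = 0 := hQc.addHaar_frontier volume
  rw [ae_iff]
  apply measure_mono_null _ h0
  intro y hy
  simp only [not_not] at hy
  have hy1 : AA e p (y : E n) ∈ frontier K := hy
  have hyK : AA e p (y : E n) ∈ K := hK.comp.isClosed.frontier_subset hy1
  refine ⟨subset_closure hyK, fun hyi => ?_⟩
  obtain ⟨x, hx, hxp⟩ := hi
  -- the base point of `x`
  have hx1 : x - (inner ℝ e x : ℝ) • e ∈ WW e := by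
    rw [Submodule.mem_orthogonal_singleton_iff_inner_right, inner_sub_right, inner_smul_right,
      real_inner_self_eq_norm_sq, he]
    ring
  set y1 : WW e := ⟨x - (inner ℝ e x : ℝ) • e, hx1⟩ with hy1'
  have hxA : AA e p (y1 : E n) = x := by
    have h1 : cc e p (y1 : E n) = inner ℝ e x := by
      unfold cc
      rw [div_eq_iff hp.ne']
      show p.2 - inner ℝ p.1 (x - (inner ℝ e x : ℝ) • e) = _
      rw [inner_sub_right, inner_smul_right, hxp]
      ring
    unfold AA
    rw [h1]
    show (inner ℝ e x : ℝ) • e + (x - (inner ℝ e x : ℝ) • e) = x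
    abel
  have hlim : Tendsto (fun ε : ℝ => y + ε • (y - y1)) (𝓝[>] 0) (𝓝 y) := by
    have h1 : ContinuousAt (fun ε : ℝ => y + ε • (y - y1)) 0 := by fun_prop
    have h2 := h1.tendsto
    simp only [zero_smul, add_zero] at h2
    exact h2.mono_left nhdsWithin_le_nhds
  obtain ⟨ε, hε, hε0⟩ := ((hlim.eventually (mem_interior_iff_mem_nhds.1 hyi)).and
    self_mem_nhdsWithin).exists
  have hε0' : 0 < ε := hε0
  have hεK : AA e p ((y + ε • (y - y1) : WW e) : E n) ∈ K := hε
  have hpos : 0 < 1 + ε := by linarith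
  have h3 : AA e p (y : E n) = (ε / (1 + ε)) • x +
      (1 / (1 + ε)) • AA e p ((y + ε • (y - y1) : WW e) : E n) := by
    rw [← hxA, ← AA_combo _ _ _ _ (by field_simp; ring)]
    congr 1
    show (y : E n) = (ε / (1 + ε)) • (y1 : E n) + (1 / (1 + ε)) • ((y : E n) + ε • ((y : E n) - y1))
    have h4 : ε / (1 + ε) = (1 / (1 + ε)) * ε := by ring
    have h5 : (1 / (1 + ε)) * (1 + ε) = 1 := by field_simp
    rw [h4]
    have h6 : ((1 / (1 + ε)) * ε) • (y1 : E n) + (1 / (1 + ε)) • ((y : E n) + ε • ((y : E n) - y1)) =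
        ((1 / (1 + ε)) * (1 + ε)) • (y : E n) := by module
    rw [h6, h5, one_smul]
  have h7 := hK.conv.combo_interior_closure_mem_interior hx (subset_closure hεK)
    (div_pos hε0' hpos) (div_pos one_pos hpos).le (by field_simp; ring)
  rw [← h3] at h7
  exact hy1.2 h7

/-- The linear form `(du, dτ) ↦ dτ - ⟪du, x⟫`. -/
noncomputable def La (x : E n) : E n × ℝ →L[ℝ] ℝ :=
  ContinuousLinearMap.snd ℝ (E n) ℝ - (innerSL ℝ x).comp (ContinuousLinearMap.fst ℝ (E n) ℝ)

theorem La_apply (x : E n) (q : E n × ℝ) : La x q = q.2 - inner ℝ x q.1 := by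
  simp [La]

theorem La_cont : Continuous (La : E n → E n × ℝ →L[ℝ] ℝ) := by
  unfold La
  fun_prop

theorem cc_deriv (y : E n) {p : E n × ℝ} (hp : 0 < (inner ℝ p.1 e : ℝ)) :
    HasFDerivAt (fun p : E n × ℝ => cc e p y) ((inner ℝ p.1 e : ℝ)⁻¹ • La (AA e p y)) p := by
  have hin : ∀ z : E n, HasFDerivAt (fun p : E n × ℝ => (inner ℝ p.1 z : ℝ))
      ((innerSL ℝ z).comp (ContinuousLinearMap.fst ℝ (E n) ℝ)) p := by
    intro z
    have h := ((innerSL ℝ z).comp (ContinuousLinearMap.fst ℝ (E n) ℝ)).hasFDerivAt (x := p)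
    refine h.congr_of_eventuallyEq (Filter.Eventually.of_forall fun q => ?_)
    simp [real_inner_comm]
  have hN : HasFDerivAt (fun p : E n × ℝ => p.2 - (inner ℝ p.1 y : ℝ)) (La y) p :=
    (ContinuousLinearMap.snd ℝ (E n) ℝ).hasFDerivAt.sub (hin y)
  have hI : HasFDerivAt (fun p : E n × ℝ => (inner ℝ p.1 e : ℝ)⁻¹) _ p :=
    (hasDerivAt_inv hp.ne').comp_hasFDerivAt p (hin e)
  have h := hN.mul hI
  have h2 : HasFDerivAt (fun p : E n × ℝ => cc e p y) _ p :=
    h.congr_of_eventuallyEq (Filter.Eventually.of_forall fun q => by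
      simp only [cc, Pi.mul_apply, div_eq_mul_inv])
  refine h2.congr_fderiv ?_
  apply ContinuousLinearMap.ext
  intro q
  simp only [add_apply, smul_apply, smul_eq_mul, La_apply,
    ContinuousLinearMap.comp_apply, ContinuousLinearMap.coe_fst', innerSL_apply_apply, AA, cc,
    inner_add_left, inner_smul_left, conj_trivial]
  field_simp
  ring

theorem cc_sub (y : E n) {p p0 : E n × ℝ} (hp : 0 < (inner ℝ p.1 e : ℝ))
    (hp0 : 0 < (inner ℝ p0.1 e : ℝ)) :
    cc e p y - cc e p0 y = La (AA e p0 y) (p - p0) / inner ℝ p.1 e := by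
  rw [eq_div_iff hp.ne', La_apply]
  simp only [AA, cc, inner_add_left, inner_smul_left, conj_trivial, Prod.fst_sub, Prod.snd_sub,
    inner_sub_right]
  rw [real_inner_comm e p.1, real_inner_comm e p0.1, real_inner_comm y p.1, real_inner_comm y p0.1]
  rw [real_inner_comm] at hp hp0
  field_simp
  ring

variable {F : Type*} [NormedAddCommGroup F] [NormedSpace ℝ F]

/-- Operator valued density. -/
noncomputable def TH (φ : E n → F) (x : E n) : E n × ℝ →L[ℝ] F := (La x).smulRight (φ x)

theorem TH_cont {φ : E n → F} (hφ : Continuous φ) : Continuous (TH φ) := by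
  have h1 : Continuous fun x : E n => ContinuousLinearMap.smulRightL ℝ (E n × ℝ) F (La x) (φ x) :=
    ((ContinuousLinearMap.smulRightL ℝ (E n × ℝ) F).continuous.comp La_cont).clm_apply hφ
  exact h1

theorem cut_TH (K : Set (E n)) (φ : E n → F) (x : E n) :
    cut K (TH φ) x = (La x).smulRight (cut K φ x) := by
  unfold cut
  by_cases hx : x ∈ K
  · rw [indicator_of_mem hx, indicator_of_mem hx]
    rfl
  · rw [indicator_of_notMem hx, indicator_of_notMem hx]
    ext q <;> simp

/-- The density of the derivative of the cap integral. -/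
noncomputable def DF (K : Set (E n)) (e : E n) (φ : E n → F) (p : E n × ℝ) (y : E n) :
    E n × ℝ →L[ℝ] F := (-(inner ℝ p.1 e : ℝ)⁻¹) • cut K (TH φ) (AA e p y)

theorem DF_apply (φ : E n → F) (p : E n × ℝ) (y : E n) (q : E n × ℝ) :
    DF K e φ p y q = (-(inner ℝ p.1 e : ℝ)⁻¹) • (La (AA e p y) q) • cut K φ (AA e p y) := by
  unfold DF
  rw [cut_TH]
  simp

theorem DF_meas (hK : IsCompact K) {φ : E n → F} (hφ : Continuous φ) (p : E n × ℝ) :
    AEStronglyMeasurable (fun y : WW e => DF K e φ p (y : E n)) volume := by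
  have h1 : Continuous fun y : WW e => AA e p (y : E n) := (AA_cont e p).comp continuous_subtype_val
  have h2 : StronglyMeasurable fun y : WW e => cut K (TH φ) (AA e p (y : E n)) :=
    (cut_sm hK (TH_cont hφ)).comp_measurable h1.measurable
  exact (h2.const_smul (-(inner ℝ p.1 e : ℝ)⁻¹)).aestronglyMeasurable

variable [CompleteSpace F]

theorem GY_fderiv (hK : IsCompact K) (he : ‖e‖ = 1) {φ : E n → F} (hφ : Continuous φ) (y : WW e)
    {p : E n × ℝ} (hp : 0 < (inner ℝ p.1 e : ℝ)) (hy : AA e p (y : E n) ∉ frontier K) :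
    HasFDerivAt (fun p : E n × ℝ => GY K e φ y (cc e p (y : E n))) (DF K e φ p (y : E n)) p := by
  have h1 := GY_deriv hK he hφ y (c := cc e p (y : E n)) hy
  have h2 := h1.hasFDerivAt.comp p (cc_deriv (y : E n) hp)
  refine HasFDerivAt.congr_fderiv (f := fun p : E n × ℝ => GY K e φ y (cc e p (y : E n))) h2 ?_
  apply ContinuousLinearMap.ext
  intro q
  rw [DF_apply]
  have h3 : sl e (y, cc e p (y : E n)) = AA e p (y : E n) := rfl
  simp only [h3, ContinuousLinearMap.comp_apply, ContinuousLinearMap.toSpanSingleton_apply,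
    smul_apply, smul_eq_mul, smul_neg, neg_smul, mul_smul]

/-- Differentiation of cap integrals. -/
theorem cap_fderiv (hK : CB K) (he : ‖e‖ = 1) {φ : E n → F} (hφ : Continuous φ)
    {p : E n × ℝ} (hp : 0 < (inner ℝ p.1 e : ℝ)) (hi : ∃ x ∈ interior K, inner ℝ p.1 x = p.2) :
    Integrable (fun y : WW e => DF K e φ p (y : E n)) ∧
    HasFDerivAt (fun p : E n × ℝ => ∫ x in cap K p.1 p.2, φ x)
      (∫ y : WW e, DF K e φ p (y : E n)) p := by
  obtain ⟨R, hR⟩ := hK.comp.isBounded.exists_norm_le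
  obtain ⟨C, hC0, hC⟩ := cut_bound hK.comp hφ
  set a0 : ℝ := inner ℝ p.1 e with ha0
  have hopen : ∀ b : ℝ, IsOpen {q : E n × ℝ | b < (inner ℝ q.1 e : ℝ)} := fun b =>
    isOpen_lt continuous_const (by fun_prop)
  set s : Set (E n × ℝ) := {q | a0 / 2 < (inner ℝ q.1 e : ℝ)} with hs
  have hsn : s ∈ 𝓝 p := (hopen _).mem_nhds (by show a0 / 2 < inner ℝ p.1 e; linarith)
  have hspos : ∀ q ∈ s, 0 < (inner ℝ q.1 e : ℝ) := fun q hq => by
    have : a0 / 2 < (inner ℝ q.1 e : ℝ) := hq
    linarith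
  set bound : WW e → ℝ := (closedBall (0 : WW e) R).indicator
    (fun y => C * (2 / a0 * ‖La (AA e p (y : E n))‖)) with hb
  have hbi : Integrable bound := by
    rw [hb, integrable_indicator_iff measurableSet_closedBall]
    have h1 : Continuous fun y : WW e => La (AA e p (y : E n)) :=
      La_cont.comp ((AA_cont e p).comp continuous_subtype_val)
    have h2 : Continuous fun y : WW e => C * (2 / a0 * ‖La (AA e p (y : E n))‖) :=
      continuous_const.mul (continuous_const.mul h1.norm)
    exact h2.continuousOn.integrableOn_compact (isCompact_closedBall _ _)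
  have key := hasFDerivAt_integral_of_dominated_loc_of_lip' (μ := (volume : Measure (WW e)))
    (F := fun (p : E n × ℝ) (y : WW e) => GY K e φ y (cc e p (y : E n)))
    (F' := fun y : WW e => DF K e φ p (y : E n)) (x₀ := p) (bound := bound) hsn
    (fun q hq => (cap_fubini hK.comp he hφ (hspos q hq)).1.aestronglyMeasurable)
    (cap_fubini hK.comp he hφ hp).1 (DF_meas hK.comp hφ p)
    (Filter.Eventually.of_forall fun y q hq => by
      by_cases hy : ‖y‖ ≤ R
      · rw [hb, indicator_of_mem (by simpa using hy)]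
        refine (GY_lip hK.comp he hφ hC y _ _).trans ?_
        rw [mul_assoc]
        apply mul_le_mul_of_nonneg_left _ hC0
        rw [cc_sub (y : E n) (hspos q hq) hp, abs_div, abs_of_pos (hspos q hq),
          div_le_iff₀ (hspos q hq)]
        have h1 := (La (AA e p (y : E n))).le_opNorm (q - p)
        rw [Real.norm_eq_abs] at h1
        refine h1.trans ?_
        have h2 : 1 ≤ 2 / a0 * inner ℝ q.1 e := by
          have : a0 / 2 < (inner ℝ q.1 e : ℝ) := hq
          rw [div_mul_eq_mul_div, le_div_iff₀ hp]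
          linarith
        have h3 : 0 ≤ ‖La (AA e p (y : E n))‖ * ‖q - p‖ := by positivity
        nlinarith
      · push Not at hy
        simp only [GY_zero hR he hy, sub_self, norm_zero]
        rw [hb, indicator_of_notMem (by simpa using hy)]
        simp)
    hbi
    (by
      filter_upwards [sec_null hK he hp hi] with y hy
      exact GY_fderiv hK.comp he hφ y hp hy)
  refine ⟨key.1, key.2.congr_of_eventuallyEq ?_⟩
  filter_upwards [hsn] with q hq
  exact (cap_fubini hK.comp he hφ (hspos q hq)).2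

theorem DF_contAt (hK : CB K) (he : ‖e‖ = 1) {φ : E n → F} (hφ : Continuous φ)
    {p : E n × ℝ} (hp : 0 < (inner ℝ p.1 e : ℝ)) (hi : ∃ x ∈ interior K, inner ℝ p.1 x = p.2) :
    ContinuousAt (fun p : E n × ℝ => ∫ y : WW e, DF K e φ p (y : E n)) p := by
  obtain ⟨R, hR⟩ := hK.comp.isBounded.exists_norm_le
  obtain ⟨C, hC0, hC⟩ := cut_bound hK.comp (TH_cont hφ)
  set a0 : ℝ := inner ℝ p.1 e with ha0
  have hopen : ∀ b : ℝ, IsOpen {q : E n × ℝ | b < (inner ℝ q.1 e : ℝ)} := fun b =>
    isOpen_lt continuous_const (by fun_prop)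
  set s : Set (E n × ℝ) := {q | a0 / 2 < (inner ℝ q.1 e : ℝ)} with hs
  have hsn : s ∈ 𝓝 p := (hopen _).mem_nhds (by show a0 / 2 < inner ℝ p.1 e; linarith)
  have hspos : ∀ q ∈ s, 0 < (inner ℝ q.1 e : ℝ) := fun q hq => by
    have : a0 / 2 < (inner ℝ q.1 e : ℝ) := hq
    linarith
  set bound : WW e → ℝ := (closedBall (0 : WW e) R).indicator (fun _ => 2 / a0 * C) with hb
  have hbi : Integrable bound := by
    rw [hb, integrable_indicator_iff measurableSet_closedBall]
    exact continuous_const.continuousOn.integrableOn_compact (isCompact_closedBall _ _)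
  apply continuousAt_of_dominated (bound := bound)
  · exact Filter.Eventually.of_forall fun q => DF_meas hK.comp hφ q
  · filter_upwards [hsn] with q hq
    refine Filter.Eventually.of_forall fun y => ?_
    by_cases hy : ‖y‖ ≤ R
    · rw [hb, indicator_of_mem (by simpa using hy)]
      unfold DF
      rw [norm_smul, norm_neg, norm_inv, Real.norm_eq_abs, abs_of_pos (hspos q hq)]
      have h1 : (inner ℝ q.1 e : ℝ)⁻¹ ≤ 2 / a0 := by
        have : a0 / 2 < (inner ℝ q.1 e : ℝ) := hq
        rw [inv_le_comm₀ (hspos q hq) (by positivity), inv_div]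
        exact this.le
      exact mul_le_mul h1 (hC _) (norm_nonneg _) (by positivity)
    · push Not at hy
      unfold DF
      have h0 : cut K (TH φ) (AA e q (y : E n)) = 0 := cut_zero hR he hy _
      rw [h0, hb, indicator_of_notMem (by simpa using hy)]
      simp
  · exact hbi
  · filter_upwards [sec_null hK he hp hi] with y hy
    unfold DF
    have h1 : ContinuousAt (fun q : E n × ℝ => AA e q (y : E n)) p := by
      unfold AA
      exact ((cc_deriv (y : E n) hp).continuousAt.smul continuousAt_const).add continuousAt_const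
    have h2 : ContinuousAt (fun q : E n × ℝ => cut K (TH φ) (AA e q (y : E n))) p :=
      ContinuousAt.comp (g := cut K (TH φ)) (cut_contAt hK.comp (TH_cont hφ) hy) h1
    have h3 : ContinuousAt (fun q : E n × ℝ => -(inner ℝ q.1 e : ℝ)⁻¹) p := by
      have h4 : ContinuousAt (fun q : E n × ℝ => (inner ℝ q.1 e : ℝ)) p := by fun_prop
      exact (h4.inv₀ hp.ne').neg
    exact h3.smul h2

/-- Hyperplanes of positive slope along `e` that cross the interior. -/
def UU (K : Set (E n)) (e : E n) : Set (E n × ℝ) :=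
  {p | 0 < (inner ℝ p.1 e : ℝ)} ∩ ((⋃ x ∈ interior K, {p | p.2 < (inner ℝ p.1 x : ℝ)}) ∩
    ⋃ x ∈ interior K, {p | (inner ℝ p.1 x : ℝ) < p.2})

theorem UU_open : IsOpen (UU K e) := by
  apply IsOpen.inter
  · exact isOpen_lt continuous_const (by fun_prop)
  · apply IsOpen.inter
    · exact isOpen_biUnion fun x _ => isOpen_lt (by fun_prop) (by fun_prop)
    · exact isOpen_biUnion fun x _ => isOpen_lt (by fun_prop) (by fun_prop)

theorem UU_mem {p : E n × ℝ} : p ∈ UU K e ↔ 0 < (inner ℝ p.1 e : ℝ) ∧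
    (∃ x ∈ interior K, p.2 < (inner ℝ p.1 x : ℝ)) ∧ ∃ x ∈ interior K, (inner ℝ p.1 x : ℝ) < p.2 := by
  unfold UU
  simp

theorem UU_level (hK : CB K) {p : E n × ℝ} (hp : p ∈ UU K e) :
    ∃ x ∈ interior K, inner ℝ p.1 x = p.2 := by
  obtain ⟨_, ⟨x, hx, hx1⟩, ⟨y, hy, hy1⟩⟩ := UU_mem.1 hp
  apply exists_int_level hK
  · exact (neg_supp_le hK.comp (interior_subset hy) p.1).trans_lt hy1
  · exact hx1.trans_le (le_supp hK.comp (interior_subset hx) p.1)

/-- Cap integrals are continuously differentiable. -/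
theorem cap_C1 (hK : CB K) (he : ‖e‖ = 1) {φ : E n → F} (hφ : Continuous φ)
    {p : E n × ℝ} (hp : p ∈ UU K e) :
    ContDiffAt ℝ 1 (fun p : E n × ℝ => ∫ x in cap K p.1 p.2, φ x) p := by
  rw [contDiffAt_one_iff]
  refine ⟨fun p => ∫ y : WW e, DF K e φ p (y : E n), UU K e, UU_open.mem_nhds hp, ?_, ?_⟩
  · intro q hq
    exact (DF_contAt hK he hφ (UU_mem.1 hq).1 (UU_level hK hq)).continuousWithinAt
  · intro q hq
    exact (cap_fderiv hK he hφ (UU_mem.1 hq).1 (UU_level hK hq)).2

/-- The cap volume strictly decreases, infinitesimally. -/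
theorem vol_deriv_neg (hK : CB K) (he : ‖e‖ = 1) {p : E n × ℝ} (hp : p ∈ UU K e) :
    (∫ y : WW e, DF K e (fun _ => (1 : ℝ)) p (y : E n)) (0, 1) < 0 := by
  have hp0 := (UU_mem.1 hp).1
  obtain ⟨x, hx, hxp⟩ := UU_level hK hp
  rw [ContinuousLinearMap.integral_apply (cap_fderiv hK he continuous_const hp0 ⟨x, hx, hxp⟩).1]
  have h1 : ∀ y : WW e, DF K e (fun _ => (1 : ℝ)) p (y : E n) (0, 1) =
      (-(inner ℝ p.1 e : ℝ)⁻¹) * cut K (fun _ => (1 : ℝ)) (AA e p (y : E n)) := by
    intro y
    rw [DF_apply, La_apply]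
    simp
  simp only [h1]
  rw [integral_const_mul]
  have h2 : 0 < ∫ y : WW e, cut K (fun _ => (1 : ℝ)) (AA e p (y : E n)) := by
    have hc : Continuous fun y : WW e => AA e p (y : E n) :=
      (AA_cont e p).comp continuous_subtype_val
    set Q : Set (WW e) := {y | AA e p (y : E n) ∈ K} with hQ
    have hQc : IsClosed Q := hK.comp.isClosed.preimage hc
    have h3 : (fun y : WW e => cut K (fun _ => (1 : ℝ)) (AA e p (y : E n))) =
        Q.indicator fun _ => (1 : ℝ) := by
      funext y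
      unfold cut
      by_cases hy : AA e p (y : E n) ∈ K
      · rw [indicator_of_mem hy, indicator_of_mem (show y ∈ Q from hy)]
      · rw [indicator_of_notMem hy, indicator_of_notMem (show y ∉ Q from hy)]
    rw [h3, integral_indicator hQc.measurableSet, setIntegral_const, smul_eq_mul, mul_one,
      measureReal_def]
    apply ENNReal.toReal_pos
    · -- positive measure
      have hx1 : x - (inner ℝ e x : ℝ) • e ∈ WW e := by
        rw [Submodule.mem_orthogonal_singleton_iff_inner_right, inner_sub_right, inner_smul_right,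
          real_inner_self_eq_norm_sq, he]
        ring
      set y1 : WW e := ⟨x - (inner ℝ e x : ℝ) • e, hx1⟩ with hy1'
      have hxA : AA e p (y1 : E n) = x := by
        have h1 : cc e p (y1 : E n) = inner ℝ e x := by
          unfold cc
          rw [div_eq_iff hp0.ne']
          show p.2 - inner ℝ p.1 (x - (inner ℝ e x : ℝ) • e) = _
          rw [inner_sub_right, inner_smul_right, hxp]
          ring
        unfold AA
        rw [h1]
        show (inner ℝ e x : ℝ) • e + (x - (inner ℝ e x : ℝ) • e) = x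
        abel
      have hO : IsOpen {y : WW e | AA e p (y : E n) ∈ interior K} := isOpen_interior.preimage hc
      have hpos : 0 < volume {y : WW e | AA e p (y : E n) ∈ interior K} :=
        hO.measure_pos _ ⟨y1, by show AA e p (y1 : E n) ∈ interior K; rw [hxA]; exact hx⟩
      have hsub : {y : WW e | AA e p (y : E n) ∈ interior K} ⊆ Q := by
        intro y hy
        have hy' : AA e p (y : E n) ∈ interior K := hy
        have hy2 : AA e p (y : E n) ∈ K := interior_subset hy'
        exact hy2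
      exact (hpos.trans_le (measure_mono hsub)).ne'
    · -- finite measure
      obtain ⟨R, hR⟩ := hK.comp.isBounded.exists_norm_le
      have hsub : Q ⊆ closedBall (0 : WW e) R := by
        intro y hy
        rw [mem_closedBall_zero_iff]
        exact (norm_le_sl he y (cc e p (y : E n))).trans (hR _ hy)
      exact ((measure_mono hsub).trans_lt (isCompact_closedBall _ _).measure_lt_top).ne
  have h4 : 0 < (inner ℝ p.1 e : ℝ)⁻¹ := inv_pos.2 hp0
  nlinarith

variable {δ lam : ℝ}

theorem mem_UU (h : CS K δ lam) {u : E n} (hu : u ≠ 0) (hpe : 0 < (inner ℝ u e : ℝ)) :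
    ((u, tt K δ u) : E n × ℝ) ∈ UU K e := by
  rw [UU_mem]
  refine ⟨hpe, exists_int_gt h.cb (level_lt h hu (tt_vol h hu)), ?_⟩
  obtain ⟨y, hy, hyu⟩ := exists_int_gt (u := -u) (τ := -tt K δ u) h.cb
    (by have := level_gt h (tt_vol h hu); linarith)
  rw [inner_neg_left] at hyu
  exact ⟨y, hy, by show inner ℝ u y < tt K δ u; linarith⟩

/-- Levels are continuously differentiable. -/
theorem tt_C1 (h : CS K δ lam) {u : E n} (hu : u ≠ 0) : ContDiffAt ℝ 1 (tt K δ) u := by
  set e : E n := ‖u‖⁻¹ • u with he'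
  have hun : 0 < ‖u‖ := norm_pos_iff.2 hu
  have he : ‖e‖ = 1 := by
    rw [he', norm_smul, norm_inv, norm_norm, inv_mul_cancel₀ hun.ne']
  have hpe : 0 < (inner ℝ u e : ℝ) := by
    rw [he', inner_smul_right, real_inner_self_eq_norm_sq]
    positivity
  have hp : ((u, tt K δ u) : E n × ℝ) ∈ UU K e := mem_UU h hu hpe
  set p0 : E n × ℝ := (u, tt K δ u) with hp0
  set V : E n × ℝ → ℝ := fun p => ∫ _x in cap K p.1 p.2, (1 : ℝ) with hV
  have hVc : ContDiffAt ℝ 1 V p0 := cap_C1 h.cb he continuous_const hp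
  set V' : E n × ℝ →L[ℝ] ℝ := ∫ y : WW e, DF K e (fun _ => (1 : ℝ)) p0 (y : E n) with hV'
  have hVd : HasFDerivAt V V' p0 :=
    (cap_fderiv h.cb he continuous_const hpe (UU_level h.cb hp)).2
  have hb : V' (0, 1) < 0 := vol_deriv_neg h.cb he hp
  set b : ℝ := V' (0, 1) with hbdef
  have hbne : b ≠ 0 := hb.ne
  -- the local diffeomorphism
  set Φ : E n × ℝ → E n × ℝ := fun p => (p.1, V p) with hΦ
  have hΦc : ContDiffAt ℝ 1 Φ p0 := contDiffAt_fst.prodMk hVc
  set f1 : E n × ℝ →L[ℝ] E n × ℝ := (ContinuousLinearMap.fst ℝ (E n) ℝ).prod V' with hf1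
  set f2 : E n × ℝ →L[ℝ] E n × ℝ := (ContinuousLinearMap.fst ℝ (E n) ℝ).prod
    (b⁻¹ • (ContinuousLinearMap.snd ℝ (E n) ℝ -
      (V'.comp (ContinuousLinearMap.inl ℝ (E n) ℝ)).comp (ContinuousLinearMap.fst ℝ (E n) ℝ)))
    with hf2
  have hVsplit : ∀ (w : E n) (s : ℝ), V' (w, s) = V' (w, 0) + s * b := by
    intro w s
    have h1 : ((w, s) : E n × ℝ) = (w, 0) + s • (0, 1) := by simp
    rw [h1, map_add, map_smul, smul_eq_mul]
  have hl : Function.LeftInverse f2 f1 := by
    rintro ⟨w, s⟩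
    have h1 : f2 (f1 (w, s)) = (w, b⁻¹ * (V' (w, s) - V' (w, 0))) := rfl
    rw [h1, hVsplit w s]
    congr 1
    field_simp
    ring
  have hr : Function.RightInverse f2 f1 := by
    rintro ⟨w, s⟩
    have h1 : f1 (f2 (w, s)) = (w, V' (w, b⁻¹ * (s - V' (w, 0)))) := rfl
    rw [h1, hVsplit w (b⁻¹ * (s - V' (w, 0)))]
    congr 1
    field_simp
    ring
  set L : (E n × ℝ) ≃L[ℝ] E n × ℝ := ContinuousLinearEquiv.equivOfInverse f1 f2 hl hr with hL
  have hΦd : HasFDerivAt Φ (L : E n × ℝ →L[ℝ] E n × ℝ) p0 :=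
    HasFDerivAt.prodMk (hasFDerivAt_fst) hVd
  have hloc := hΦc.to_localInverse hΦd one_ne_zero
  have hinv : ∀ᶠ p in 𝓝 p0, hΦc.localInverse hΦd one_ne_zero (Φ p) = p :=
    (hΦc.hasStrictFDerivAt' hΦd one_ne_zero).eventually_left_inverse
  have htc : ContinuousAt (tt K δ) u := (tt_cont h).continuousAt (isOpen_compl_singleton.mem_nhds hu)
  have hpc : ContinuousAt (fun v : E n => ((v, tt K δ v) : E n × ℝ)) u := continuousAt_id.prodMk htc
  have hΦp : Φ p0 = (u, δ) := by
    show (u, V p0) = (u, δ)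
    have h1 : V p0 = vol (cap K u (tt K δ u)) := (vol_eq_int _ _).symm
    rw [h1, vol, tt_vol h hu, ENNReal.toReal_ofReal h.dpos.le]
  rw [hΦp] at hloc
  have h3 : ContDiffAt ℝ 1 (fun v : E n => (hΦc.localInverse hΦd one_ne_zero (v, δ)).2) u := by
    have h4 : ContDiffAt ℝ 1 (fun v : E n => ((v, δ) : E n × ℝ)) u :=
      contDiffAt_id.prodMk contDiffAt_const
    exact contDiffAt_snd.comp u (ContDiffAt.comp u (f := fun v : E n => ((v, δ) : E n × ℝ)) hloc h4)
  refine h3.congr_of_eventuallyEq ?_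
  filter_upwards [hpc.tendsto.eventually hinv,
    (isOpen_compl_singleton.mem_nhds hu : ({0}ᶜ : Set (E n)) ∈ 𝓝 u)] with v hv hv0
  have h5 : Φ (v, tt K δ v) = (v, δ) := by
    show (v, V (v, tt K δ v)) = (v, δ)
    have h1 : V (v, tt K δ v) = vol (cap K v (tt K δ v)) := (vol_eq_int _ _).symm
    rw [h1, vol, tt_vol h hv0, ENNReal.toReal_ofReal h.dpos.le]
  rw [h5] at hv
  rw [hv]

/-- Support points depend continuously differentiably on the direction. -/
theorem XX_C1 (h : CS K δ lam) {u : E n} (hu : u ≠ 0) : ContDiffAt ℝ 1 (XX K δ lam) u := by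
  set e : E n := ‖u‖⁻¹ • u with he'
  have hun : 0 < ‖u‖ := norm_pos_iff.2 hu
  have he : ‖e‖ = 1 := by
    rw [he', norm_smul, norm_inv, norm_norm, inv_mul_cancel₀ hun.ne']
  have hpe : 0 < (inner ℝ u e : ℝ) := by
    rw [he', inner_smul_right, real_inner_self_eq_norm_sq]
    positivity
  have h1 := cap_C1 h.cb he (φ := fun x : E n => x) continuous_id (mem_UU h hu hpe)
  have h2 : ContDiffAt ℝ 1 (fun v : E n => ((v, tt K δ v) : E n × ℝ)) u :=
    contDiffAt_id.prodMk (tt_C1 h hu)
  have h3 : ContDiffAt ℝ 1 (fun v : E n => ∫ x in cap K v (tt K δ v), x) u :=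
    ContDiffAt.comp u (f := fun v : E n => ((v, tt K δ v) : E n × ℝ))
      (g := fun p : E n × ℝ => ∫ x in cap K p.1 p.2, x) h1 h2
  exact h3.const_smul lam⁻¹

/-- The gradient of the support function is the support point. -/
theorem supp_fderiv (h : CS K δ lam) {u : E n} (hu : u ≠ 0) :
    HasFDerivAt (supp K) (innerSL ℝ (XX K δ lam u)) u := by
  rw [hasFDerivAt_iff_isLittleO_nhds_zero, Asymptotics.isLittleO_iff]
  intro c hc
  have hX : ContinuousAt (XX K δ lam) u :=
    (XX_cont h).continuousAt (isOpen_compl_singleton.mem_nhds hu)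
  have hadd : Tendsto (fun w : E n => u + w) (𝓝 0) (𝓝 u) := by
    have h1 : ContinuousAt (fun w : E n => u + w) 0 := by fun_prop
    have h2 := h1.tendsto
    simpa using h2
  have h1 : ∀ᶠ w in 𝓝 (0 : E n), ‖XX K δ lam (u + w) - XX K δ lam u‖ < c := by
    have h2 := (hX.tendsto.comp hadd).sub_const (XX K δ lam u)
    rw [sub_self] at h2
    have h3 := h2.norm
    rw [norm_zero] at h3
    exact h3.eventually_lt_const hc
  have h2 : ∀ᶠ w in 𝓝 (0 : E n), u + w ≠ 0 := hadd.eventually (isOpen_compl_singleton.mem_nhds hu)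
  filter_upwards [h1, h2] with w hw hw0
  have h3 := le_supp h.cb.comp (XX_mem h hu) (u + w)
  have h4 := XX_sup h hw0
  have h5 := le_supp h.cb.comp (XX_mem h hw0) u
  have h6 := XX_sup h hu
  rw [inner_add_left, h6] at h3
  rw [inner_add_left] at h4
  have h7 : |inner ℝ w (XX K δ lam (u + w) - XX K δ lam u)| ≤
      ‖w‖ * ‖XX K δ lam (u + w) - XX K δ lam u‖ := abs_real_inner_le_norm _ _
  have h8 := le_abs_self (inner ℝ w (XX K δ lam (u + w) - XX K δ lam u) : ℝ)
  rw [inner_sub_right] at h7 h8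
  have h9 : ‖w‖ * ‖XX K δ lam (u + w) - XX K δ lam u‖ ≤ ‖w‖ * c :=
    mul_le_mul_of_nonneg_left hw.le (norm_nonneg _)
  have h10 : innerSL ℝ (XX K δ lam u) w = (inner ℝ w (XX K δ lam u) : ℝ) := by
    rw [innerSL_apply_apply, real_inner_comm]
  rw [h10, Real.norm_eq_abs, abs_of_nonneg (by linarith)]
  linarith

/-- (REG) The support function of a centred solution is `C²` outside the origin. -/
theorem reg : S_reg := by
  intro n K δ lam _ h u hu
  have hu0 : u ≠ 0 := hu
  apply ContDiffAt.contDiffWithinAt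
  have h2 : (2 : WithTop ℕ∞) = ((1 : ℕ) : WithTop ℕ∞) + 1 := by norm_num
  rw [h2, contDiffAt_succ_iff_hasFDerivAt]
  refine ⟨fun v => innerSL ℝ (XX K δ lam v), ⟨{0}ᶜ, isOpen_compl_singleton.mem_nhds hu,
    fun v hv => supp_fderiv h hv⟩, ?_⟩
  exact (innerSL ℝ).contDiff.contDiffAt.comp u (XX_C1 h hu0)

end Pool.Agent.Helper79.SY
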