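import Pool.Agent.Helper79.SY.Dat

/-!
# Fubini along a direction; hyperplane sections (project MP_a2630c_SY, module REG)
-/

open MeasureTheory Set Metric Real Filter Topology
open scoped RealInnerProductSpace ENNReal
open Pool.Agent.Helper16.Buoy (E cap IsEllipsoid Homothetic buoyancyBody)
open Pool.Agent.Helper73.HV (supp)
open Pool.Agent.Helper73.LR (CB vol GG Sol aff)

set_option linter.unusedSectionVars false

namespace Pool.Agent.Helper79.SY

open Pool.Agent.Helper73.SY Pool.Agent.Helper65.LR Pool.Agent.Helper51.HV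

variable {n : ℕ} {K : Set (E n)} {e : E n}

/-- The hyperplane orthogonal to `e`. -/
noncomputable abbrev WW (e : E n) : Submodule ℝ (E n) := (ℝ ∙ e)ᗮ

/-- Decomposition of the space along `e`. -/
noncomputable def sl (e : E n) (q : WW e × ℝ) : E n := q.2 • e + (q.1 : E n)

theorem sl_cont : Continuous (sl e) := by
  unfold sl
  fun_prop

theorem inner_e_W (y : WW e) : inner ℝ e (y : E n) = (0 : ℝ) :=
  Submodule.mem_orthogonal_singleton_iff_inner_right.1 y.2

theorem sl_inj (he : ‖e‖ = 1) : Function.Injective (sl e) := by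
  rintro ⟨y, s⟩ ⟨y', s'⟩ h
  have h' : s • e + (y : E n) = s' • e + (y' : E n) := h
  have h1 : inner ℝ e (s • e + (y : E n)) = (inner ℝ e (s' • e + (y' : E n)) : ℝ) := by rw [h']
  rw [inner_add_right, inner_add_right, inner_smul_right, inner_smul_right, inner_e_W, inner_e_W,
    real_inner_self_eq_norm_sq, he] at h1
  have h2 : s = s' := by linarith
  subst h2
  have h3 : (y : E n) = y' := add_left_cancel h'
  rw [Prod.mk.injEq]
  exact ⟨Subtype.ext h3, rfl⟩

theorem sl_emb (he : ‖e‖ = 1) : MeasurableEmbedding (sl e) :=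
  sl_cont.measurableEmbedding (sl_inj he)

theorem sl_mp (he : ‖e‖ = 1) :
    MeasurePreserving (sl e) ((volume : Measure (WW e)).prod (volume : Measure ℝ)) volume := by
  have h1 : MeasurePreserving (LinearIsometryEquiv.toSpanUnitSingleton (𝕜 := ℝ) e he)
      volume volume := LinearIsometryEquiv.measurePreserving _
  have h2 := h1.prod (MeasurePreserving.id (volume : Measure (WW e)))
  have h3 := WithLp.volume_preserving_toLp (ℝ ∙ e : Submodule ℝ (E n)) (WW e)
  have h4 : MeasurePreserving ((ℝ ∙ e : Submodule ℝ (E n)).orthogonalDecomposition).symm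
      volume volume := LinearIsometryEquiv.measurePreserving _
  have h5 := Measure.measurePreserving_swap (μ := (volume : Measure (WW e)))
    (ν := (volume : Measure ℝ))
  have h6 := ((h4.comp h3).comp h2).comp h5
  have h7 : (((ℝ ∙ e : Submodule ℝ (E n)).orthogonalDecomposition).symm ∘ (WithLp.toLp 2) ∘
      (Prod.map (LinearIsometryEquiv.toSpanUnitSingleton (𝕜 := ℝ) e he) id) ∘ Prod.swap) = sl e := by
    funext q
    rfl
  rw [← h7]
  exact h6

theorem norm_sl (he : ‖e‖ = 1) (y : WW e) (s : ℝ) : ‖sl e (y, s)‖ ^ 2 = s ^ 2 + ‖y‖ ^ 2 := by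
  have h1 : ‖s • e + (y : E n)‖ ^ 2 = ‖s • e‖ ^ 2 + 2 * inner ℝ (s • e) (y : E n) + ‖(y : E n)‖ ^ 2 :=
    norm_add_sq_real _ _
  rw [inner_smul_left, inner_e_W, norm_smul, he] at h1
  show ‖s • e + (y : E n)‖ ^ 2 = _
  rw [h1, Submodule.norm_coe]
  simp

theorem norm_le_sl (he : ‖e‖ = 1) (y : WW e) (s : ℝ) : ‖y‖ ≤ ‖sl e (y, s)‖ := by
  have := norm_sl he y s
  apply le_of_sq_le_sq _ (norm_nonneg _)
  nlinarith [sq_nonneg s]

theorem abs_le_sl (he : ‖e‖ = 1) (y : WW e) (s : ℝ) : |s| ≤ ‖sl e (y, s)‖ := by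
  have := norm_sl he y s
  apply le_of_sq_le_sq _ (norm_nonneg _)
  rw [sq_abs]
  nlinarith [sq_nonneg ‖y‖]

/-- Height of the hyperplane of level `p.2` over the point `y`. -/
noncomputable def cc (e : E n) (p : E n × ℝ) (y : E n) : ℝ := (p.2 - inner ℝ p.1 y) / inner ℝ p.1 e

/-- The point of the hyperplane over `y`. -/
noncomputable def AA (e : E n) (p : E n × ℝ) (y : E n) : E n := cc e p y • e + y

theorem AA_inner {p : E n × ℝ} (hp : 0 < (inner ℝ p.1 e : ℝ)) (y : E n) :
    inner ℝ p.1 (AA e p y) = p.2 := by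
  unfold AA cc
  rw [inner_add_right, inner_smul_right]
  field_simp
  ring

theorem mem_cap_sl {p : E n × ℝ} (hp : 0 < (inner ℝ p.1 e : ℝ)) (y : WW e) (s : ℝ) :
    p.2 ≤ inner ℝ p.1 (sl e (y, s)) ↔ cc e p y ≤ s := by
  unfold cc sl
  rw [inner_add_right, inner_smul_right, div_le_iff₀ hp]
  constructor <;> intro h <;> linarith

variable {F : Type*} [NormedAddCommGroup F] [NormedSpace ℝ F]

/-- The function `φ` cut off outside `K`. -/
noncomputable def cut (K : Set (E n)) (φ : E n → F) : E n → F := K.indicator φ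

theorem cut_bound (hK : IsCompact K) {φ : E n → F} (hφ : Continuous φ) :
    ∃ C : ℝ, 0 ≤ C ∧ ∀ x, ‖cut K φ x‖ ≤ C := by
  obtain ⟨C, hC⟩ := hK.exists_bound_of_continuousOn hφ.continuousOn
  refine ⟨max C 0, le_max_right _ _, fun x => ?_⟩
  unfold cut
  by_cases hx : x ∈ K
  · rw [indicator_of_mem hx]
    exact (hC x hx).trans (le_max_left _ _)
  · rw [indicator_of_notMem hx, norm_zero]
    exact le_max_right _ _

theorem cut_contAt (hK : IsCompact K) {φ : E n → F} (hφ : Continuous φ) {x : E n}
    (hx : x ∉ frontier K) : ContinuousAt (cut K φ) x := by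
  rcases em (x ∈ K) with h | h
  · have hi : x ∈ interior K := by
      by_contra hi
      exact hx ⟨subset_closure h, hi⟩
    refine hφ.continuousAt.congr ?_
    filter_upwards [mem_interior_iff_mem_nhds.1 hi] with y hy
    exact (indicator_of_mem hy φ).symm
  · refine (continuousAt_const (y := (0 : F))).congr ?_
    filter_upwards [hK.isClosed.isOpen_compl.mem_nhds h] with y hy
    exact (indicator_of_notMem hy φ).symm

theorem cut_zero {R : ℝ} (hR : ∀ x ∈ K, ‖x‖ ≤ R) (he : ‖e‖ = 1) {φ : E n → F} {y : WW e}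
    (hy : R < ‖y‖) (s : ℝ) : cut K φ (sl e (y, s)) = 0 := by
  apply indicator_of_notMem
  intro h
  have h1 := hR _ h
  have h2 := norm_le_sl he y s
  linarith

theorem cut_sm (hK : IsCompact K) {φ : E n → F} (hφ : Continuous φ) :
    StronglyMeasurable (cut K φ) := hφ.stronglyMeasurable.indicator hK.measurableSet

/-- Fibres of `K` give integrable functions. -/
theorem fib_int (hK : IsCompact K) (he : ‖e‖ = 1) {φ : E n → F} (hφ : Continuous φ) (y : WW e) :
    Integrable fun s : ℝ => cut K φ (sl e (y, s)) := by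
  have hc : Continuous fun s : ℝ => sl e (y, s) := sl_cont.comp (by fun_prop)
  obtain ⟨R, hR⟩ := hK.isBounded.exists_norm_le
  have hS : IsCompact {s : ℝ | sl e (y, s) ∈ K} := by
    apply isCompact_of_isClosed_isBounded (hK.isClosed.preimage hc)
    apply (isBounded_iff_forall_norm_le).2
    refine ⟨R, fun s hs => ?_⟩
    exact (abs_le_sl he y s).trans (hR _ hs)
  have h1 : IntegrableOn (fun s : ℝ => φ (sl e (y, s))) {s : ℝ | sl e (y, s) ∈ K} :=
    (hφ.comp hc).continuousOn.integrableOn_compact hS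
  have h2 := (integrable_indicator_iff hS.measurableSet).2 h1
  exact h2

variable [CompleteSpace F]

/-- The integral over the part of the fibre above height `c`. -/
noncomputable def GY (K : Set (E n)) (e : E n) (φ : E n → F) (y : WW e) (c : ℝ) : F :=
  ∫ s in Ioi c, cut K φ (sl e (y, s))

theorem GY_sub (hK : IsCompact K) (he : ‖e‖ = 1) {φ : E n → F} (hφ : Continuous φ) (y : WW e)
    (c c' : ℝ) : GY K e φ y c - GY K e φ y c' = ∫ s in c..c', cut K φ (sl e (y, s)) := by
  have h := intervalIntegral.integral_Ioi_sub_Ioi' (μ := volume)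
    (f := fun s : ℝ => cut K φ (sl e (y, s))) (a := c) (b := c')
    (fib_int hK he hφ y).integrableOn (fib_int hK he hφ y).integrableOn
  exact h

theorem GY_lip (hK : IsCompact K) (he : ‖e‖ = 1) {φ : E n → F} (hφ : Continuous φ) {C : ℝ}
    (hC : ∀ x, ‖cut K φ x‖ ≤ C) (y : WW e) (c c' : ℝ) :
    ‖GY K e φ y c - GY K e φ y c'‖ ≤ C * |c - c'| := by
  rw [GY_sub hK he hφ, abs_sub_comm]
  exact intervalIntegral.norm_integral_le_of_norm_le_const fun s _ => hC _

theorem GY_zero {R : ℝ} (hR : ∀ x ∈ K, ‖x‖ ≤ R) (he : ‖e‖ = 1) {φ : E n → F} {y : WW e}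
    (hy : R < ‖y‖) (c : ℝ) : GY K e φ y c = 0 := by
  unfold GY
  simp only [cut_zero hR he hy, integral_zero]

theorem GY_deriv (hK : IsCompact K) (he : ‖e‖ = 1) {φ : E n → F} (hφ : Continuous φ) (y : WW e)
    {c : ℝ} (hc : sl e (y, c) ∉ frontier K) :
    HasDerivAt (GY K e φ y) (-cut K φ (sl e (y, c))) c := by
  have hcont : Continuous fun s : ℝ => sl e (y, s) := sl_cont.comp (by fun_prop)
  have h1 : GY K e φ y = fun a => (∫ s in a..c, cut K φ (sl e (y, s))) + GY K e φ y c := by
    funext a
    rw [← GY_sub hK he hφ]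
    abel
  rw [h1]
  apply HasDerivAt.add_const
  apply intervalIntegral.integral_hasDerivAt_left
  · exact (fib_int hK he hφ y).intervalIntegrable
  · exact ((cut_sm hK hφ).comp_measurable hcont.measurable).stronglyMeasurableAtFilter
  · exact ContinuousAt.comp (f := fun s : ℝ => sl e (y, s)) (g := cut K φ) (x := c)
      (cut_contAt hK hφ hc) hcont.continuousAt

/-- Integral over a cap by Fubini. -/
theorem cap_fubini (hK : IsCompact K) (he : ‖e‖ = 1) {φ : E n → F} (hφ : Continuous φ)
    {p : E n × ℝ} (hp : 0 < (inner ℝ p.1 e : ℝ)) :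
    Integrable (fun y : WW e => GY K e φ y (cc e p y)) ∧
    ∫ x in cap K p.1 p.2, φ x = ∫ y : WW e, GY K e φ y (cc e p y) := by
  have hm : MeasurableSet (cap K p.1 p.2) := cap_meas hK _ _
  have hI : Integrable ((cap K p.1 p.2).indicator φ) :=
    (integrable_indicator_iff hm).2 ((int_on hK hφ).mono_set (cap_subset _ _))
  have hI2 : Integrable (fun q : WW e × ℝ => (cap K p.1 p.2).indicator φ (sl e q))
      ((volume : Measure (WW e)).prod (volume : Measure ℝ)) :=
    ((sl_mp he).integrable_comp_emb (sl_emb he)).2 hI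
  have hin : ∀ y : WW e, ∫ s : ℝ, (cap K p.1 p.2).indicator φ (sl e (y, s)) =
      GY K e φ y (cc e p y) := by
    intro y
    unfold GY
    rw [← integral_Ici_eq_integral_Ioi, ← integral_indicator measurableSet_Ici]
    congr 1
    funext s
    by_cases hs : cc e p y ≤ s
    · rw [indicator_of_mem (show s ∈ Ici (cc e p y) from hs)]
      unfold cut
      by_cases hx : sl e (y, s) ∈ K
      · rw [indicator_of_mem hx, indicator_of_mem]
        exact ⟨hx, (mem_cap_sl hp y s).2 hs⟩
      · rw [indicator_of_notMem hx, indicator_of_notMem]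
        exact fun h => hx h.1
    · rw [indicator_of_notMem (show s ∉ Ici (cc e p y) from hs), indicator_of_notMem]
      exact fun h => hs ((mem_cap_sl hp y s).1 h.2)
  constructor
  · have := hI2.integral_prod_left
    simpa only [hin] using this
  · rw [← integral_indicator hm, ← (sl_mp he).integral_comp (sl_emb he), integral_prod _ hI2]
    simp only [hin]

end Pool.Agent.Helper79.SY
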